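import Pool.Agent.W700.KK.Defs
import Pool.Agent.Helper362.HapH

/-!
# The space without approximation property as trace data (part KY)

The first part repeats the choice of the data in `Pool.Agent.Helper362.HapG` and `HapH` with the
additional information that the entries of `η` are small.
-/

set_option autoImplicit false

open Filter
open scoped Topology ENNReal

namespace Pool.Agent.W976.KK

open Pool.Agent.Helper362.Hap

lemma S3 {K : Type} [Field K] [Fintype K] [DecidableEq K] {m : ℕ} (g : GG K m) (i : I1 K m) :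
    |et0 g i| ≤ (1 / 2) ^ m := by
  unfold et0
  split_ifs
  · rw [abs_mul, abs_kap]
    cases g.2.2 <;> simp [sg]
  · rw [abs_zero]; positivity

theorem step' (m : ℕ) (hm : 4 ≤ m) : ∃ (ξ : Fin (2 * 16 ^ (8 * m)) → Fin (16 ^ m) → ℝ)
    (η : Fin (2 * 16 ^ (8 * m)) → Fin (16 ^ (8 * m)) → ℝ),
    StepProps (16 ^ m) (16 ^ (8 * m)) (2 * 16 ^ (8 * m)) m ξ η ∧
      ∀ g i, |η g i| ≤ (1 / 2) ^ m := by
  classical
  let K := GaloisField 2 (2 * m)
  letI : Fintype K := Fintype.ofFinite K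
  have hK : Fintype.card K = 4 ^ m := by
    rw [← Nat.card_eq_fintype_card, GaloisField.card 2 (2 * m) (by omega), pow_mul]
    norm_num
  have hS : Fintype.card (Fin m → Fin 4) = 4 ^ m := by simp
  let e : (Fin m → Fin 4) ≃ K := Fintype.equivOfCardEq (by rw [hK, hS])
  have e16 : (16 : ℕ) ^ m = 4 ^ m * 4 ^ m := by
    rw [← mul_pow]; norm_num
  have e168 : (16 : ℕ) ^ (8 * m) = (4 ^ m) ^ 15 * 4 ^ m := by
    rw [← pow_succ, ← pow_mul, show (16 : ℕ) = 4 ^ 2 from rfl, ← pow_mul]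
    congr 1; ring
  have hP : Fintype.card (Fin 15 → K) = (4 ^ m) ^ 15 := by
    rw [Fintype.card_pi, Finset.prod_const, Finset.card_univ, Fintype.card_fin, hK]
  let eG : GG K m ≃ Fin (2 * 16 ^ (8 * m)) := Fintype.equivOfCardEq (by
    rw [Fintype.card_prod, Fintype.card_prod, hP, hS, Fintype.card_bool, Fintype.card_fin, e168]
    ring)
  let eI : I0 K m ≃ Fin (16 ^ m) := Fintype.equivOfCardEq (by
    rw [Fintype.card_prod, hS, hK, Fintype.card_fin, e16])
  let eI' : I1 K m ≃ Fin (16 ^ (8 * m)) := Fintype.equivOfCardEq (by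
    rw [Fintype.card_prod, hS, hP, Fintype.card_fin, e168])
  refine ⟨fun g i => xi0 e (eG.symm g) (eI.symm i), fun g i => et0 (eG.symm g) (eI'.symm i),
    ?_, fun g i => S3 _ _⟩
  constructor
  · intro i j
    rw [eG.symm.sum_comp (fun g => xi0 e g (eI.symm i) * xi0 e g (eI.symm j)), P1]
    simp only [EmbeddingLike.apply_eq_iff_eq]
    split_ifs
    · rw [hP, hK, e16, e168]
      push_cast
      have : (4 : ℝ) ^ m ≠ 0 := by positivity
      field_simp
    · rfl
  · intro i j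
    rw [eG.symm.sum_comp (fun g => et0 g (eI'.symm i) * et0 g (eI'.symm j)), P2]
    simp only [EmbeddingLike.apply_eq_iff_eq]
    split_ifs
    · push_cast
      have : (16 : ℝ) ^ (8 * m) ≠ 0 := by positivity
      field_simp
    · rfl
  · intro i j
    rw [eG.symm.sum_comp (fun g => xi0 e g (eI.symm i) * et0 g (eI'.symm j)), P3]
  · intro g
    rw [eI.symm.sum_comp (fun i => xi0 e (eG.symm g) i ^ 2), N1]
  · intro g
    rw [eI'.symm.sum_comp (fun i => et0 (eG.symm g) i ^ 2), N2]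
  · intro g h hgh
    rw [eI.symm.sum_comp (fun i => xi0 e (eG.symm g) i * xi0 e (eG.symm h) i)]
    exact C1 e hm _ _ (fun h1 => hgh (eG.symm.injective h1))
  · intro g h hgh
    rw [eI'.symm.sum_comp (fun i => et0 (eG.symm g) i * et0 (eG.symm h) i)]
    exact C2 _ _ (fun h1 => hgh (eG.symm.injective h1))
  · intro g i
    exact S1 e _ _
  · intro g
    rw [eI'.symm.sum_comp (fun i => |et0 (eG.symm g) i|)]
    exact S2 _

noncomputable def xiD (k : ℕ) : Fin (2 * 16 ^ (8 * mm k)) → Fin (16 ^ mm k) → ℝ :=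
  Classical.choose (step' (mm k) (four_le_mm k))

noncomputable def etD (k : ℕ) : Fin (2 * 16 ^ (8 * mm k)) → Fin (16 ^ (8 * mm k)) → ℝ :=
  Classical.choose (Classical.choose_spec (step' (mm k) (four_le_mm k)))

lemma propsD (k : ℕ) : StepProps (16 ^ mm k) (16 ^ (8 * mm k)) (2 * 16 ^ (8 * mm k)) (mm k)
    (xiD k) (etD k) :=
  (Classical.choose_spec (Classical.choose_spec (step' (mm k) (four_le_mm k)))).1

lemma smallD (k : ℕ) (g : Fin (2 * 16 ^ (8 * mm k))) (i : Fin (16 ^ (8 * mm k))) :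
    |etD k g i| ≤ (1 / 2) ^ mm k :=
  (Classical.choose_spec (Classical.choose_spec (step' (mm k) (four_le_mm k)))).2 g i

lemma glueD (k : ℕ) (g : Fin (2 * 16 ^ (8 * mm k))) (h : Fin (2 * 16 ^ (8 * mm (k + 1)))) :
    |∑ i, etD k g i * xiD (k + 1) h i| ≤ (1 / 2) ^ (7 * mm k) := by
  calc |∑ i, etD k g i * xiD (k + 1) h i| ≤ ∑ i, |etD k g i| * (1 / 2) ^ (8 * mm k) := by
        refine (Finset.abs_sum_le_sum_abs _ _).trans (Finset.sum_le_sum (fun i _ => ?_))
        rw [abs_mul]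
        exact mul_le_mul_of_nonneg_left ((propsD (k + 1)).sξ h i) (abs_nonneg _)
    _ = (∑ i, |etD k g i|) * (1 / 2) ^ (8 * mm k) := by rw [Finset.sum_mul]
    _ ≤ 2 ^ mm k * (1 / 2) ^ (8 * mm k) :=
        mul_le_mul_of_nonneg_right ((propsD k).sη g) (by positivity)
    _ = (1 / 2) ^ (7 * mm k) := by
        have h1 : 8 * mm k = 7 * mm k + mm k := by ring
        have h2 : (1 / 2 : ℝ) ^ mm k * 2 ^ mm k = 1 := by rw [← mul_pow]; norm_num
        rw [h1, pow_add]
        calc _ = (1 / 2 : ℝ) ^ (7 * mm k) * ((1 / 2 : ℝ) ^ mm k * 2 ^ mm k) := by ring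
          _ = _ := by rw [h2, mul_one]

/-- The data. -/
noncomputable def dat : Data where
  s k := 16 ^ mm k
  r k := 2 * 16 ^ (8 * mm k)
  ρ k := 2 ^ (4 ^ (k + 1))
  μ k := (1 / 2) ^ mm k
  γ k := (1 / 2) ^ (7 * mm k)
  ξ := xiD
  η := etD
  s_pos k := by positivity
  r_pos k := by positivity
  hξξ k := (propsD k).hξξ
  hηη k := (propsD k).hηη
  hξη k := (propsD k).hξη
  nξ k := (propsD k).nξ
  nη k := (propsD k).nη
  cξ k := (propsD k).cξ
  cη k := (propsD k).cη
  glue := glueD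
  ρ_pos k := Nat.one_le_two_pow
  μ_nonneg k := by positivity
  hμ k := by
    have h1 := half_two (mm k) (4 ^ (k + 1) * k + 1) (by rw [mm_eq]; exact exp_bound k)
    have h2 : (((2 ^ (4 ^ (k + 1)) : ℕ) : ℝ)) ^ k = 2 ^ (4 ^ (k + 1) * k) := by
      rw [Nat.cast_pow, ← pow_mul]; norm_num
    rw [h2]
    rw [pow_succ] at h1
    have h3 : (1 : ℝ) ≤ 2 ^ (4 ^ (k + 1) * k) := one_le_pow₀ (by norm_num)
    have h4 : (0 : ℝ) < (1 / 2) ^ mm k := by positivity
    nlinarith
  own k := by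
    have h0 : 3 * k + 4 ^ (k + 1) * k + 2 ≤ 2 * mm k := by
      rw [mm_eq]
      have := exp_bound k
      have := exp_bound2 k
      omega
    have h1 := half_two (2 * mm k) (3 * k + 4 ^ (k + 1) * k + 2) h0
    have h2 : (((2 ^ (4 ^ (k + 1)) : ℕ) : ℝ)) ^ k = 2 ^ (4 ^ (k + 1) * k) := by
      rw [Nat.cast_pow, ← pow_mul]; norm_num
    have h3 : (8 : ℝ) ^ k = 2 ^ (3 * k) := by rw [pow_mul]; norm_num
    rw [h2, h3]
    refine le_trans (le_of_eq ?_) h1
    rw [pow_add, pow_add, mul_pow, ← pow_mul, mul_comm (mm k) 2]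
    ring
  up k := by
    have h0 : 3 * (k + 1) + 4 ^ (k + 1 + 1) * (k + 1) ≤ 14 * mm k := by
      rw [mm_eq]
      have h1 := exp_bound (k + 1)
      have h2 := exp_bound2 (k + 1)
      have h3 : (8 : ℕ) ^ (k + 1 + 1) = 8 * 8 ^ (k + 1) := by ring
      have h4 : 3 * (k + 1) ≤ 6 * 8 ^ (k + 1) := by
        have := exp_bound2 k
        omega
      omega
    have h1 := half_two (14 * mm k) (3 * (k + 1) + 4 ^ (k + 1 + 1) * (k + 1)) h0
    have h2 : (((2 ^ (4 ^ (k + 1 + 1)) : ℕ) : ℝ)) ^ (k + 1) = 2 ^ (4 ^ (k + 1 + 1) * (k + 1)) := by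
      rw [Nat.cast_pow, ← pow_mul]; norm_num
    have h3 : (8 : ℝ) ^ (k + 1) = 2 ^ (3 * (k + 1)) := by rw [pow_mul]; norm_num
    rw [h2, h3]
    refine le_trans (le_of_eq ?_) h1
    have h5 : 14 * mm k = 7 * mm k * 2 := by ring
    rw [pow_add (2 : ℝ) (3 * (k + 1)), ← pow_mul, h5]
  down k := by
    have h0 : 3 * k + 4 ^ (k + 1) * k ≤ 14 * mm k := by
      rw [mm_eq]
      have := exp_bound k
      have := exp_bound2 k
      omega
    have h1 := half_two (14 * mm k) (3 * k + 4 ^ (k + 1) * k) h0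
    have h2 : (((2 ^ (4 ^ (k + 1)) : ℕ) : ℝ)) ^ k = 2 ^ (4 ^ (k + 1) * k) := by
      rw [Nat.cast_pow, ← pow_mul]; norm_num
    have h3 : (8 : ℝ) ^ k = 2 ^ (3 * k) := by rw [pow_mul]; norm_num
    rw [h2, h3]
    refine le_trans (le_of_eq ?_) h1
    have h5 : 14 * mm k = 7 * mm k * 2 := by ring
    rw [pow_add (2 : ℝ) (3 * k), ← pow_mul, h5]
  hs := by
    have h1 : Tendsto (fun k : ℕ => (1 / 8 : ℝ) ^ k) atTop (𝓝 0) :=
      tendsto_pow_atTop_nhds_zero_of_lt_one (by norm_num) (by norm_num)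
    refine squeeze_zero (fun k => by positivity) (fun k => ?_) h1
    rw [div_le_iff₀ (by positivity)]
    have h2 : (16 : ℝ) ^ k ≤ ((16 ^ mm k : ℕ) : ℝ) := by
      rw [Nat.cast_pow]
      have h3 : k ≤ mm k := by
        rw [mm_eq]
        have := exp_bound2 k
        omega
      exact_mod_cast Nat.pow_le_pow_right (by norm_num) h3
    calc (2 : ℝ) ^ k = (1 / 8) ^ k * 16 ^ k := by rw [← mul_pow]; norm_num
      _ ≤ _ := mul_le_mul_of_nonneg_left h2 (by positivity)
  hN k n hn := by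
    have h0 : 3 + 2 * k + 4 ^ k ≤ 4 ^ (k + 1) := by
      have h1 : 2 * k + 3 ≤ 3 * 4 ^ k := by
        have := succ_le_two_pow k
        have h2 : (4 : ℕ) ^ k = 2 ^ k * 2 ^ k := by rw [← mul_pow]; norm_num
        rw [h2]
        nlinarith [Nat.one_le_two_pow (n := k)]
      rw [pow_succ]; omega
    have h1 : (n : ℝ) ≤ 2 ^ (4 ^ k) := by exact_mod_cast hn
    have h2 : (2 : ℝ) ^ (3 + 2 * k + 4 ^ k) ≤ 2 ^ (4 ^ (k + 1)) :=
      pow_le_pow_right₀ (by norm_num) h0
    have h3 : (2 : ℝ) ^ (3 + 2 * k + 4 ^ k) = 8 * 4 ^ k * 2 ^ (4 ^ k) := by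
      rw [pow_add, pow_add, pow_mul]; norm_num
    rw [Nat.cast_pow, Nat.cast_ofNat]
    calc 6 * (4 : ℝ) ^ k * n ≤ 6 * (4 : ℝ) ^ k * 2 ^ (4 ^ k) :=
          mul_le_mul_of_nonneg_left h1 (by positivity)
      _ ≤ 8 * 4 ^ k * 2 ^ (4 ^ k) := by
          have : (0 : ℝ) < 4 ^ k * 2 ^ (4 ^ k) := by positivity
          nlinarith
      _ ≤ _ := by rw [← h3]; exact h2

lemma dat_xi (k : ℕ) (g : Fin (dat.r k)) (i : Fin (dat.s k)) : |dat.ξ k g i| ≤ dat.μ k :=
  (propsD k).sξ g i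

lemma dat_et (k : ℕ) (g : Fin (dat.r k)) (i : Fin (dat.s (k + 1))) : |dat.η k g i| ≤ dat.μ k :=
  smallD k g i

section Gen

variable (D : Data)

lemma inner_cast_single {n : ℕ} (a : Fin n → ℝ) (i : Fin n) :
    inner ℂ (WithLp.toLp 2 (fun i => ((a i : ℝ) : ℂ)) : EuclideanSpace ℂ (Fin n))
      (EuclideanSpace.single i 1 : EuclideanSpace ℂ (Fin n)) = ((a i : ℝ) : ℂ) := by
  have h := Data.inner_cast ℂ a (EuclideanSpace.single i 1 : EuclideanSpace ℂ (Fin n))
  refine h.trans ?_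
  rw [Finset.sum_eq_single i]
  · simp
  · intro j _ hj
    simp [hj]
  · intro h'; exact absurd (Finset.mem_univ _) h'

lemma norm_e_le (hξ : ∀ k g i, |D.ξ k g i| ≤ D.μ k) (hη : ∀ k g i, |D.η k g i| ≤ D.μ k) (k : ℕ)
    (i : Fin (D.s k)) : ‖D.io ℂ k (EuclideanSpace.single i 1)‖ ≤ 6 := by
  have h1 : ‖D.io ℂ k (EuclideanSpace.single i 1)‖ ≤ (({k - 1, k} : Finset ℕ).card : ℝ) * 2 := by
    refine D.norm_le_card ℂ (D.io ℂ k (EuclideanSpace.single i 1)) {k - 1, k} 2 (by norm_num)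
      ?_ ?_
    · intro j hj
      by_cases h1 : j = k
      · subst h1
        have hz : D.co2 ℂ j (D.io ℂ j (EuclideanSpace.single i 1)) =
            WithLp.toLp 2 (EuclideanSpace.single i 1, 0) := by
          show WithLp.toLp 2 (D.co ℂ j (D.io ℂ j (EuclideanSpace.single i 1)),
            D.co ℂ (j + 1) (D.io ℂ j (EuclideanSpace.single i 1))) = _
          rw [D.co_io_same ℂ, D.co_io_ne ℂ j (j + 1) (by omega)]
        rw [hz]
        refine D.norm_J_flat ℂ j _ (2 * D.μ j) (fun h => ?_) (D.own j) ?_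
        · rw [D.inner_w ℂ, inner_zero_right, add_zero]
          have h2 := inner_cast_single (D.ξ j h) i
          have h3 : inner ℂ (D.xi ℂ j h) (EuclideanSpace.single i 1 : D.F ℂ j) =
            ((D.ξ j h i : ℝ) : ℂ) := h2
          rw [h3, Complex.norm_real, Real.norm_eq_abs]
          linarith [hξ j h i, D.μ_nonneg j]
        · rw [D.norm_V_sq ℂ, norm_zero, EuclideanSpace.norm_single]
          norm_num
      · have h3 : j = k - 1 ∧ 1 ≤ k := by
          simp only [Finset.mem_insert, Finset.mem_singleton] at hj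
          omega
        obtain ⟨m, rfl⟩ : ∃ m, k = m + 1 := ⟨k - 1, by omega⟩
        obtain rfl : j = m := by omega
        have hz : D.co2 ℂ j (D.io ℂ (j + 1) (EuclideanSpace.single i 1)) =
            WithLp.toLp 2 (0, EuclideanSpace.single i 1) := by
          show WithLp.toLp 2 (D.co ℂ j (D.io ℂ (j + 1) (EuclideanSpace.single i 1)),
            D.co ℂ (j + 1) (D.io ℂ (j + 1) (EuclideanSpace.single i 1))) = _
          rw [D.co_io_same ℂ, D.co_io_ne ℂ (j + 1) j (by omega)]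
        rw [hz]
        refine D.norm_J_flat ℂ j _ (2 * D.μ j) (fun h => ?_) (D.own j) ?_
        · rw [D.inner_w ℂ, inner_zero_right, zero_add]
          have h2 := inner_cast_single (D.η j h) i
          have h3 : inner ℂ (D.et ℂ j h) (EuclideanSpace.single i 1 : D.F ℂ (j + 1)) =
            ((D.η j h i : ℝ) : ℂ) := h2
          rw [h3, Complex.norm_real, Real.norm_eq_abs]
          linarith [hη j h i, D.μ_nonneg j]
        · rw [D.norm_V_sq ℂ, norm_zero, EuclideanSpace.norm_single]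
          norm_num
    · intro j hj
      simp only [Finset.mem_insert, Finset.mem_singleton, not_or] at hj
      have hz : D.co2 ℂ j (D.io ℂ k (EuclideanSpace.single i 1)) = 0 := by
        show WithLp.toLp 2 (D.co ℂ j (D.io ℂ k (EuclideanSpace.single i 1)),
          D.co ℂ (j + 1) (D.io ℂ k (EuclideanSpace.single i 1))) = _
        rw [D.co_io_ne ℂ k j (by omega), D.co_io_ne ℂ k (j + 1) (by omega)]
        rfl
      rw [hz, map_zero]
  have h2 : (({k - 1, k} : Finset ℕ).card : ℝ) ≤ 2 := by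
    exact_mod_cast Finset.card_le_two
  linarith

/-- the subspace of the elements which vanish from level `k` on -/
noncomputable def Yk (k : ℕ) : Submodule ℂ (D.X ℂ) where
  carrier := {y | ∀ j, k ≤ j → D.co ℂ j y = 0}
  add_mem' {x y} hx hy j hj := by rw [map_add, hx j hj, hy j hj, add_zero]
  zero_mem' j _ := map_zero _
  smul_mem' c x hx j hj := by rw [map_smul, hx j hj, smul_zero]

lemma mem_Yk {k : ℕ} {y : D.X ℂ} : y ∈ Yk D k ↔ ∀ j, k ≤ j → D.co ℂ j y = 0 := Iff.rfl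

lemma fd_Yk (k : ℕ) : FiniteDimensional ℂ (Yk D k) := by
  let T : Yk D k →ₗ[ℂ] ((j : Fin k) → D.F ℂ j) :=
    LinearMap.pi (fun j : Fin k => (D.co ℂ (j : ℕ)).comp (Yk D k).subtype)
  refine FiniteDimensional.of_injective T ?_
  intro x y hxy
  apply Subtype.ext
  apply D.E_ext ℂ
  intro j
  by_cases hj : j < k
  · exact congrFun hxy ⟨j, hj⟩
  · have hx := x.2 j (not_lt.1 hj)
    have hy := y.2 j (not_lt.1 hj)
    rw [hx, hy]

/-- the coordinate functionals -/
noncomputable def ff (k : ℕ) (i : Fin (D.s k)) : D.X ℂ →L[ℂ] ℂ :=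
  LinearMap.mkContinuous
    { toFun := fun y => (D.co ℂ k y) i
      map_add' := fun x y => by rw [map_add]; rfl
      map_smul' := fun c x => by rw [map_smul]; rfl } 1
    (fun x => by
      rw [one_mul]
      exact (PiLp.norm_apply_le _ i).trans (D.norm_co_le ℂ k x))

lemma ff_apply (k : ℕ) (i : Fin (D.s k)) (y : D.X ℂ) : ff D k i y = (D.co ℂ k y) i := rfl

lemma norm_co_le' (k : ℕ) (y : D.X ℂ) : ‖D.co ℂ k y‖ ≤ ‖(D.toL ℂ y) k‖ := by
  set x := D.toL ℂ y with hx
  have h2 : ‖x k default‖ ≤ ‖x k‖ := norm_le_pi_norm (x k) default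
  have h3 : ‖p1 (x k default)‖ ≤ ‖x k default‖ := norm_p1_le _
  have h4 : ‖(p1 (x k default)).fst‖ ≤ ‖p1 (x k default)‖ := by
    refine le_of_sq_le_sq ?_ (norm_nonneg _)
    rw [WithLp.prod_norm_sq_eq_of_L2 (p1 (x k default))]
    linarith [sq_nonneg ‖(p1 (x k default)).snd‖]
  exact h4.trans (h3.trans h2)

lemma ff_tend (y : D.X ℂ) (ε : ℝ) (hε : 0 < ε) : ∃ K, ∀ k, K ≤ k → ∀ i, ‖ff D k i y‖ ≤ ε := by
  have h1 := (lp.memℓp (D.toL ℂ y)).summable (by norm_num)
  have h2 := h1.tendsto_atTop_zero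
  obtain ⟨K, hK⟩ := eventually_atTop.1 (h2.eventually_le_const (show (0 : ℝ) < ε ^ 2 by positivity))
  refine ⟨K, fun k hk i => ?_⟩
  have h3 := hK k hk
  have e2 : (2 : ℝ≥0∞).toReal = (2 : ℕ) := by norm_num
  rw [e2, Real.rpow_natCast] at h3
  have h4 : ‖(D.toL ℂ y) k‖ ≤ ε := le_of_sq_le_sq h3 hε.le
  rw [ff_apply]
  exact (PiLp.norm_apply_le _ i).trans ((norm_co_le' D k y).trans h4)

lemma rank_one_eq (k : ℕ) (φ : D.X ℂ →ₗ[ℂ] ℂ) (y : D.X ℂ) :
    ∑ i, φ (D.io ℂ k (EuclideanSpace.single i 1)) * (D.co ℂ k y) i =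
      φ (D.io ℂ k (D.co ℂ k y)) := by
  have h2 : D.co ℂ k y = ∑ i, (D.co ℂ k y) i •
      (EuclideanSpace.single i 1 : EuclideanSpace ℂ (Fin (D.s k))) := by
    apply (WithLp.equiv 2 _).injective
    funext j
    show (D.co ℂ k y) j = (∑ i, (D.co ℂ k y) i •
      (EuclideanSpace.single i 1 : EuclideanSpace ℂ (Fin (D.s k)))) j
    rw [sum_ap, Finset.sum_eq_single j]
    · simp
    · intro l _ hl
      simp [hl.symm]
    · intro h; exact absurd (Finset.mem_univ _) h
  conv_rhs => rw [h2]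
  rw [map_sum, map_sum]
  refine Finset.sum_congr rfl (fun i _ => ?_)
  rw [map_smul, map_smul, smul_eq_mul, mul_comm]

lemma io_mem (k : ℕ) (v : D.F ℂ k) : D.io ℂ k v ∈ Yk D (k + 1) := by
  intro j hj
  exact D.co_io_ne ℂ k j (by omega) v

/-- the trace data -/
noncomputable def trD (hξ : ∀ k g i, |D.ξ k g i| ≤ D.μ k) (hη : ∀ k g i, |D.η k g i| ≤ D.μ k)
    (hs : ∀ ε : ℝ, 0 < ε → ∃ K, ∀ k, K ≤ k → (4 : ℝ) ^ k / D.s k ≤ ε) :
    W700.KK.TrD (D.X ℂ) where
  Yk := Yk D
  mono := fun a b hab y hy j hj => hy j (hab.trans hj)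
  fd := fd_Yk D
  s := D.s
  s_pos := D.s_pos
  e := fun k i => D.io ℂ k (EuclideanSpace.single i 1)
  e_mem := fun k i => io_mem D k _
  norm_e := norm_e_le D hξ hη
  f := ff D
  norm_f := fun k i => LinearMap.mkContinuous_norm_le _ zero_le_one _
  f_tend := ff_tend D
  trace_id := fun k => by
    have : ∀ i : Fin (D.s k), ff D k i (D.io ℂ k (EuclideanSpace.single i 1)) = 1 := by
      intro i
      rw [ff_apply, D.co_io_same ℂ]
      simp
    rw [Finset.sum_congr rfl (fun i _ => this i), Finset.sum_const, Finset.card_univ,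
      Fintype.card_fin, nsmul_eq_mul, mul_one]
  r := D.r
  b := fun k g => D.bv ℂ k g
  b_mem := fun k g j hj => by
    rw [D.co_bv ℂ, D.co_io_ne ℂ k j (by omega), D.co_io_ne ℂ (k + 1) j (by omega), sub_zero]
  norm_b := fun k g => D.norm_bv ℂ k g
  step := fun k R ε hε => D.beta_step ℂ k R ε hε
  rank_one := fun k φ C hC hφ y => by
    have h1 := rank_one_eq D k φ y
    have h2 : ∑ i, φ (D.io ℂ k (EuclideanSpace.single i 1)) * ff D k i y =
        φ (D.io ℂ k (D.co ℂ k y)) := h1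
    rw [h2]
    refine (hφ _ (io_mem D k _)).trans ?_
    calc C * ‖D.io ℂ k (D.co ℂ k y)‖ ≤ C * (6 * 2 ^ k * ‖y‖) := by
          refine mul_le_mul_of_nonneg_left ?_ hC
          refine (D.norm_io ℂ k _).trans ?_
          exact mul_le_mul_of_nonneg_left (D.norm_co_le ℂ k y) (by positivity)
      _ = _ := by ring
  hs := hs

instance fdHH (V : Type) [NormedAddCommGroup V] [InnerProductSpace ℂ V] [FiniteDimensional ℂ V]
    (G : Type) [Fintype G] (k : ℕ) : FiniteDimensional ℂ (HH ℂ V G k) :=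
  inferInstanceAs (FiniteDimensional ℂ (WithLp 2 (V × EuclideanSpace ℂ (Fin k × G))))

lemma sep_B (k : ℕ) : TopologicalSpace.SeparableSpace (D.B ℂ k) := by
  have h1 : FiniteDimensional ℂ (D.V ℂ k) :=
    inferInstanceAs (FiniteDimensional ℂ (WithLp 2 (D.F ℂ k × D.F ℂ (k + 1))))
  have h2 : FiniteDimensional ℂ (D.B ℂ k) := inferInstance
  have h3 : ProperSpace (D.B ℂ k) := FiniteDimensional.proper ℂ _
  infer_instance

lemma sep_X : TopologicalSpace.SeparableSpace (D.X ℂ) := by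
  classical
  have hs : ∀ k, Continuous (fun v : D.B ℂ k => (lp.single 2 k v : D.L ℂ)) := by
    intro k
    refine (AddMonoidHomClass.isometry_of_norm
      (lp.singleAddMonoidHom (E := fun k => D.B ℂ k) 2 k) ?_).continuous
    intro v
    exact lp.norm_single (by norm_num) k v
  have h1 : TopologicalSpace.IsSeparable
      (⋃ k, Set.range (fun v : D.B ℂ k => (lp.single 2 k v : D.L ℂ))) := by
    refine TopologicalSpace.IsSeparable.iUnion (fun k => ?_)
    have := sep_B D k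
    exact TopologicalSpace.isSeparable_range (hs k)
  have h2 := (h1.span (R := ℂ)).closure
  have h3 : ∀ x : D.L ℂ, x ∈ closure ((Submodule.span ℂ
      (⋃ k, Set.range (fun v : D.B ℂ k => (lp.single 2 k v : D.L ℂ))) : Submodule ℂ (D.L ℂ)) :
      Set (D.L ℂ)) := by
    intro x
    have h4 := lp.hasSum_single (E := fun k => D.B ℂ k) (p := 2) (by norm_num) x
    refine mem_closure_of_tendsto h4 (Eventually.of_forall fun s => ?_)
    refine Submodule.sum_mem _ (fun k _ => Submodule.subset_span ?_)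
    exact Set.mem_iUnion.2 ⟨k, ⟨x k, rfl⟩⟩
  have h4 : TopologicalSpace.IsSeparable ((D.E ℂ : Submodule ℂ (D.L ℂ)) : Set (D.L ℂ)) :=
    h2.mono (fun x _ => h3 x)
  exact h4.separableSpace

end Gen

lemma dat_hs (ε : ℝ) (hε : 0 < ε) : ∃ K, ∀ k, K ≤ k → (4 : ℝ) ^ k / dat.s k ≤ ε := by
  obtain ⟨K, hK⟩ := exists_pow_lt_of_lt_one hε (show (1 / 4 : ℝ) < 1 by norm_num)
  refine ⟨K, fun k hk => ?_⟩
  have h1 : (4 : ℝ) ^ k / dat.s k ≤ (1 / 4) ^ k := by
    show (4 : ℝ) ^ k / ((16 ^ mm k : ℕ) : ℝ) ≤ (1 / 4) ^ k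
    rw [div_le_iff₀ (by positivity)]
    have h2 : (16 : ℝ) ^ k ≤ ((16 ^ mm k : ℕ) : ℝ) := by
      rw [Nat.cast_pow]
      have h3 : k ≤ mm k := by
        rw [mm_eq]
        have := exp_bound2 k
        omega
      exact_mod_cast Nat.pow_le_pow_right (by norm_num) h3
    calc (4 : ℝ) ^ k = (1 / 4) ^ k * 16 ^ k := by rw [← mul_pow]; norm_num
      _ ≤ _ := mul_le_mul_of_nonneg_left h2 (by positivity)
  exact h1.trans ((pow_le_pow_of_le_one (by norm_num) (by norm_num) hk).trans hK.le)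

/-- KY: the space `Y`. -/
theorem main : W700.KK.S_KY :=
  ⟨dat.X ℂ, inferInstance, inferInstance, inferInstance, sep_X dat,
    ⟨trD dat dat_xi dat_et dat_hs⟩⟩

end Pool.Agent.W976.KK
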